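import Pool.Agent.Helper32.CL.St4

/-!
# Project CL, module AF: facts on the certificate functions
-/

set_option autoImplicit false

namespace Pool.Agent.Helper28.CL

open Helper32.CL Helper35.PI Helper35.PI2
open scoped ContDiff BigOperators

private theorem dn_ne (δ : ℝ) (hδ : 0 < δ) (p : ℝ × ℝ × ℝ) : dn δ p ≠ 0 := by
  unfold dn
  positivity

private theorem fD_smooth (δ : ℝ) (hδ : 0 < δ) : ContDiff ℝ ∞ (fD δ) := by
  unfold fD
  refine ContDiff.div ?_ ?_ (dn_ne δ hδ)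
  · unfold rp mp
    fun_prop
  · unfold dn
    fun_prop

private theorem cD_smooth (δ : ℝ) (hδ : 0 < δ) : (cD δ).Smooth := by
  refine ⟨?_, ?_, ?_, ?_⟩
  · show ContDiff ℝ ∞ (fun p : ℝ × ℝ × ℝ × ℝ => fD δ (p.1, p.2.1, p.2.2.1))
    exact (fD_smooth δ hδ).comp (by fun_prop)
  · show ContDiff ℝ ∞ (a1D δ)
    unfold a1D
    refine ContDiff.div ?_ ?_ (dn_ne δ hδ)
    · unfold rp mp
      fun_prop
    · unfold dn
      fun_prop
  · show ContDiff ℝ ∞ (a2D δ)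
    unfold a2D
    refine ContDiff.add (ContDiff.div ?_ ?_ (dn_ne δ hδ)) (fD_smooth δ hδ)
    · unfold rp mp
      fun_prop
    · unfold dn
      fun_prop
  · show ContDiff ℝ ∞ (a3D δ)
    unfold a3D
    refine ContDiff.div ?_ ?_ (dn_ne δ hδ)
    · unfold mp
      fun_prop
    · unfold dn
      fun_prop

/-- module AF -/
theorem hAF : StAF := by
  refine ⟨fun δ hδ => cD_smooth δ hδ, ?_⟩
  intro N A δ _ hδ hXY
  have hY0 : 0 ≤ YY A := sq_nonneg _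
  have hX0 : 0 ≤ XX A :=
    Finset.sum_nonneg fun i _ => Finset.sum_nonneg fun j _ => sq_nonneg _
  -- Z ≤ X Y
  have hzle : ∀ i j, zz A i j ^ 2 ≤ ‖A i j‖ ^ 2 * YY A := by
    intro i j
    unfold zz YY
    have h1 := abs_real_inner_le_norm (A i j) (Hv A)
    have h2 : |inner ℝ (A i j) (Hv A)| ^ 2 ≤ (‖A i j‖ * ‖Hv A‖) ^ 2 :=
      pow_le_pow_left₀ (abs_nonneg _) h1 2
    rw [sq_abs, mul_pow] at h2
    exact h2
  have hZX : ZZ A ≤ XX A * YY A := by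
    unfold ZZ XX
    rw [Finset.sum_mul]
    refine Finset.sum_le_sum fun i _ => ?_
    rw [Finset.sum_mul]
    exact Finset.sum_le_sum fun j _ => hzle i j
  -- Y = z₀₀ + z₁₁
  have hYz : YY A = zz A 0 0 + zz A 1 1 := by
    have hH : Hv A = A 0 0 + A 1 1 := by
      unfold Hv
      rw [Fin.sum_univ_two]
    have : YY A = inner ℝ (Hv A) (Hv A) := by
      unfold YY
      rw [real_inner_self_eq_norm_sq]
    rw [this]
    unfold zz
    nth_rewrite 1 [hH]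
    rw [inner_add_left]
  have hZe : ZZ A = zz A 0 0 ^ 2 + zz A 0 1 ^ 2 + (zz A 1 0 ^ 2 + zz A 1 1 ^ 2) := by
    unfold ZZ
    simp only [Fin.sum_univ_two]
  have hYZ : YY A ^ 2 ≤ 2 * ZZ A := by
    rw [hYz, hZe]
    nlinarith [sq_nonneg (zz A 0 0 - zz A 1 1), sq_nonneg (zz A 0 1), sq_nonneg (zz A 1 0)]
  have hXe : XX A = ‖A 0 0‖ ^ 2 + ‖A 0 1‖ ^ 2 + (‖A 1 0‖ ^ 2 + ‖A 1 1‖ ^ 2) := by
    unfold XX
    simp only [Fin.sum_univ_two]
  have hXY2 : YY A ≤ 2 * XX A := by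
    have hH : Hv A = A 0 0 + A 1 1 := by
      unfold Hv
      rw [Fin.sum_univ_two]
    have h1 : ‖Hv A‖ ≤ ‖A 0 0‖ + ‖A 1 1‖ := by
      rw [hH]
      exact norm_add_le _ _
    have h2 : ‖Hv A‖ ^ 2 ≤ (‖A 0 0‖ + ‖A 1 1‖) ^ 2 := pow_le_pow_left₀ (norm_nonneg _) h1 2
    have h3 : YY A = ‖Hv A‖ ^ 2 := rfl
    rw [h3, hXe]
    nlinarith [sq_nonneg (‖A 0 0‖ - ‖A 1 1‖), sq_nonneg (‖A 0 1‖), sq_nonneg (‖A 1 0‖)]
  have hXYY : XX A * YY A ≤ YY A ^ 2 := by nlinarith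
  have e1 : rp (J3 A) = XX A * YY A - ZZ A := rfl
  have e2 : mp (J3 A) = ZZ A - YY A ^ 2 / 2 := rfl
  have r0 : 0 ≤ rp (J3 A) := by rw [e1]; linarith
  have r1 : rp (J3 A) ≤ YY A ^ 2 / 2 := by rw [e1]; linarith
  have m0 : 0 ≤ mp (J3 A) := by rw [e2]; linarith
  have m1 : mp (J3 A) ≤ YY A ^ 2 / 2 := by rw [e2]; linarith
  have d0 : 0 ≤ dn δ (J3 A) := by
    unfold dn
    positivity
  have d1 : YY A ^ 4 ≤ dn δ (J3 A) := by
    have : dn δ (J3 A) = YY A ^ 4 + δ ^ 4 := rfl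
    rw [this]
    have : 0 ≤ δ ^ 4 := by positivity
    linarith
  have ef : fD δ (J3 A) = (YY A ^ 3 * (rp (J3 A) / 4 + 9 / 320 * mp (J3 A))
      + 7 / 40 * (rp (J3 A) * mp (J3 A) * YY A)) / dn δ (J3 A) := rfl
  have hf0 : 0 ≤ fD δ (J3 A) := by
    rw [ef]
    refine div_nonneg ?_ d0
    positivity
  have hf1 : fD δ (J3 A) ≤ YY A := by
    rw [ef]
    refine div_le_of_le_mul₀ d0 hY0 ?_
    have h1 : rp (J3 A) * mp (J3 A) ≤ YY A ^ 2 / 2 * (YY A ^ 2 / 2) :=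
      mul_le_mul r1 m1 m0 (by positivity)
    have h2 : rp (J3 A) * mp (J3 A) * YY A ≤ YY A ^ 2 / 2 * (YY A ^ 2 / 2) * YY A :=
      mul_le_mul_of_nonneg_right h1 hY0
    have h3 : YY A ^ 3 * (rp (J3 A) / 4 + 9 / 320 * mp (J3 A))
        ≤ YY A ^ 3 * (YY A ^ 2 / 2 / 4 + 9 / 320 * (YY A ^ 2 / 2)) :=
      mul_le_mul_of_nonneg_left (by linarith) (by positivity)
    have h4 : YY A * YY A ^ 4 ≤ YY A * dn δ (J3 A) := mul_le_mul_of_nonneg_left d1 hY0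
    have h5 : 0 ≤ YY A ^ 5 := by positivity
    have h6 : YY A * YY A ^ 4 = YY A ^ 5 := by ring
    have h7 : YY A ^ 3 * (YY A ^ 2 / 2 / 4 + 9 / 320 * (YY A ^ 2 / 2)) = 89 / 640 * YY A ^ 5 := by
      ring
    have h8 : YY A ^ 2 / 2 * (YY A ^ 2 / 2) * YY A = 1 / 4 * YY A ^ 5 := by ring
    rw [h6] at h4
    rw [h7] at h3
    rw [h8] at h2
    linarith
  exact ⟨r0, r1, m0, m1, hf0, hf1, by linarith⟩

end Pool.Agent.Helper28.CL
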