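import Pool.Agent.Helper32.CL.St1

/-! Project CL (MP_b2fa09_gt), module DC: dominated convergence in space time -/

set_option autoImplicit false

namespace Pool.Agent.Helper28.CL

open Helper32.CL Helper35.PI Helper35.PI2
open scoped ContDiff Manifold Topology ENNReal BigOperators
open MeasureTheory Set Filter

theorem hDC : Helper32.CL.StMU → Helper32.CL.StTD → Helper32.CL.StDC := by
  intro hMU hTD n N M _ _ _ _ _ _ _ F c χ hS t₁ t₂ B h12 h20 k hk hB hlim
  obtain ⟨s, -, hs⟩ := hMU n N M F c χ hS
  obtain ⟨hT, -⟩ := hTD n N M F c χ hS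
  have hneg : ∀ t ∈ Icc t₁ t₂, t < 0 := fun t ht => lt_of_le_of_lt ht.2 h20
  have hfin : ∀ t, t < 0 → IsFiniteMeasure (muM n F c χ t) := fun t ht => ⟨(hs t ht).1⟩
  have hsl : ∀ j, ∀ t, t < 0 → Continuous (fun q => k j q t) := by
    intro j t ht
    have h1 : Continuous (fun q : M => ((q, t) : M × ℝ)) := by fun_prop
    exact (hk j).comp_continuous h1 (fun q => ⟨mem_univ _, ht⟩)
  have hinner : ∀ t ∈ Icc t₁ t₂,
      Tendsto (fun j => ∫ q, k j q t ∂muM n F c χ t) atTop (𝓝 0) := by
    intro t ht
    have ht0 := hneg t ht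
    have := hfin t ht0
    have h1 := tendsto_integral_of_dominated_convergence (μ := muM n F c χ t)
      (F := fun j q => k j q t) (f := fun _ => (0 : ℝ)) (fun _ => B)
      (fun j => (hsl j t ht0).aestronglyMeasurable) (integrable_const B)
      (fun j => Filter.Eventually.of_forall fun q => by
        rw [Real.norm_eq_abs]
        exact hB j q t ht)
      (Filter.Eventually.of_forall fun q => hlim q t ht)
    simpa using h1
  have hone : ContinuousOn (fun t => ∫ _q, (1 : ℝ) ∂muM n F c χ t) (Iio 0) :=
    hT (fun _ _ => 1) continuousOn_const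
  have hsub : uIcc t₁ t₂ ⊆ Iio (0 : ℝ) := by
    intro t ht
    rw [uIcc_of_le h12] at ht
    exact hneg t ht
  have hsub' : uIoc t₁ t₂ ⊆ Iio (0 : ℝ) := fun t ht => hsub (uIoc_subset_uIcc ht)
  have key := intervalIntegral.tendsto_integral_filter_of_dominated_convergence
    (μ := volume) (l := atTop) (a := t₁) (b := t₂)
    (F := fun (j : ℕ) (t : ℝ) => ∫ q, k j q t ∂muM n F c χ t) (f := fun _ => (0 : ℝ))
    (fun t => B * ∫ _q, (1 : ℝ) ∂muM n F c χ t)
    (Filter.Eventually.of_forall fun j =>
      ((hT (k j) (hk j)).mono hsub').aestronglyMeasurable measurableSet_uIoc)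
    (Filter.Eventually.of_forall fun j => Filter.Eventually.of_forall fun t ht => by
      have ht' : t ∈ Icc t₁ t₂ := by
        rw [← uIcc_of_le h12]
        exact uIoc_subset_uIcc ht
      have := hfin t (hneg t ht')
      have h1 : ‖∫ q, k j q t ∂muM n F c χ t‖ ≤ B * (muM n F c χ t).real univ :=
        norm_integral_le_of_norm_le_const (Filter.Eventually.of_forall fun q => by
          rw [Real.norm_eq_abs]
          exact hB j q t ht')
      have h2 : ∫ _q, (1 : ℝ) ∂muM n F c χ t = (muM n F c χ t).real univ := by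
        simp
      rw [h2]
      exact h1)
    ((continuousOn_const.mul (hone.mono hsub)).intervalIntegrable)
    (Filter.Eventually.of_forall fun t ht => by
      have ht' : t ∈ Icc t₁ t₂ := by
        rw [← uIcc_of_le h12]
        exact uIoc_subset_uIcc ht
      exact hinner t ht')
  simpa using key

end Pool.Agent.Helper28.CL
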