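import Pool.Agent.Helper32.CL.St3

/-!
# Project CL, module PS: the main pointwise inequality on the flow
-/

set_option autoImplicit false

namespace Pool.Agent.Helper28.CL

open Helper32.CL Helper35.PI Helper35.PI2 Pool.Agent.Helper35.CL
open scoped ContDiff Manifold Topology ENNReal BigOperators
open MeasureTheory Set Filter

private theorem tq_nonneg {n N : ℕ} (T : Fin n → Fin n → Fin n → EE N) : 0 ≤ tq T := by
  unfold tq
  positivity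

/-- elementary inequality behind PS -/
private theorem ps_alg (η C G ρ Y θ E E' g1 w s g2 tqT V f I : ℝ)
    (hC : 0 ≤ C) (hG0 : 0 ≤ G) (hG1 : G ≤ 1) (hρ0 : 0 ≤ ρ) (hρ1 : ρ ≤ 1)
    (hY : 0 ≤ Y) (hE : 0 ≤ E) (hE' : 0 ≤ E')
    (h1 : E ≤ g1 / s) (h2 : E' = w / s) (h3 : tqT ≤ g2) (h3' : 0 ≤ tqT) (h4 : V ≤ f / s)
    (h4' : 0 ≤ V)
    (hI : η * (ρ * (Y * θ)) - C * (E + E' * Y) - C * (ρ * (1 - ρ) * (tqT + Y ^ 2 + Y * V)) ≤ I) :
    η * (G * (ρ * (Y * θ))) - C * ((g1 + Y * w) / s)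
      - C * (ρ * (1 - ρ) * (g2 + Y ^ 2 + Y * (f / s))) ≤ G * I := by
  have a1 : E + E' * Y ≤ (g1 + Y * w) / s := by
    have : (g1 + Y * w) / s = g1 / s + w / s * Y := by ring
    rw [this, ← h2]
    linarith
  have a2 : 0 ≤ E + E' * Y := by positivity
  have a3 : G * (E + E' * Y) ≤ (g1 + Y * w) / s := by
    have : G * (E + E' * Y) ≤ 1 * (E + E' * Y) := mul_le_mul_of_nonneg_right hG1 a2
    linarith
  have r0 : 0 ≤ ρ * (1 - ρ) := mul_nonneg hρ0 (by linarith)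
  have b0 : 0 ≤ tqT + Y ^ 2 + Y * V := by positivity
  have b1 : tqT + Y ^ 2 + Y * V ≤ g2 + Y ^ 2 + Y * (f / s) := by
    have : Y * V ≤ Y * (f / s) := mul_le_mul_of_nonneg_left h4 hY
    linarith
  have b2 : ρ * (1 - ρ) * (tqT + Y ^ 2 + Y * V)
      ≤ ρ * (1 - ρ) * (g2 + Y ^ 2 + Y * (f / s)) := mul_le_mul_of_nonneg_left b1 r0
  have b3 : 0 ≤ ρ * (1 - ρ) * (tqT + Y ^ 2 + Y * V) := mul_nonneg r0 b0
  have b4 : G * (ρ * (1 - ρ) * (tqT + Y ^ 2 + Y * V))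
      ≤ ρ * (1 - ρ) * (g2 + Y ^ 2 + Y * (f / s)) := by
    have : G * (ρ * (1 - ρ) * (tqT + Y ^ 2 + Y * V))
        ≤ 1 * (ρ * (1 - ρ) * (tqT + Y ^ 2 + Y * V)) := mul_le_mul_of_nonneg_right hG1 b3
    linarith
  have c1 := mul_le_mul_of_nonneg_left hI hG0
  have c2 := mul_le_mul_of_nonneg_left a3 hC
  have c3 := mul_le_mul_of_nonneg_left b4 hC
  have c4 : G * (η * (ρ * (Y * θ)) - C * (E + E' * Y)
      - C * (ρ * (1 - ρ) * (tqT + Y ^ 2 + Y * V)))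
      = η * (G * (ρ * (Y * θ))) - C * (G * (E + E' * Y))
        - C * (G * (ρ * (1 - ρ) * (tqT + Y ^ 2 + Y * V))) := by ring
  linarith

/-- module PS -/
theorem hPS (hAI : StAI) (hAF : StAF) (hGJ : StGJ) : StPS := by
  intro c₀ hc₀
  obtain ⟨η, C, hη, hC, hmain⟩ := hAI c₀ hc₀
  refine ⟨η, C, hη, hC, ?_⟩
  intro N M _ _ _ F hF t ht q hX δ hδ
  obtain ⟨A, T, ν, v, hA, hT, eA, eH, _, h1, h2, h3, h4, h5⟩ := hGJ hAF.1 N M F hF t ht q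
  have eY : ‖HH (n := 2) F q t‖ ^ 2 = YY A := by
    rw [eH]
    rfl
  have eρ : rhF δ F q t = YY A ^ 4 / (YY A ^ 4 + δ ^ 4) := by
    unfold rhF
    rw [eY]
  have hXY : XX A ≤ c₀ * YY A := by
    rw [← eA, ← eY]
    exact hX
  have hI := hmain N A T ν v ((-2 * t)⁻¹) (-2 * t) δ hA hT hXY hδ (rhF δ F q t) eρ
  have hY0 : 0 ≤ YY A := sq_nonneg _
  have hρ0 : 0 ≤ rhF δ F q t := by
    rw [eρ]
    positivity
  have hρ1 : rhF δ F q t ≤ 1 := by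
    rw [eρ]
    refine div_le_one_of_le₀ ?_ (by positivity)
    have : 0 ≤ δ ^ 4 := by positivity
    linarith
  have hG0 : 0 ≤ ggF F q t := (Real.exp_pos _).le
  have hG1 : ggF F q t ≤ 1 := by
    unfold ggF
    rw [← Real.exp_zero]
    refine Real.exp_le_exp.mpr ?_
    have : 0 ≤ (-2 * t)⁻¹ * ‖F q t‖ ^ 2 / 2 := by
      have : 0 ≤ (-2 * t)⁻¹ := inv_nonneg.mpr (by linarith)
      positivity
    linarith
  have eθ : thF 2 F q t = 2 * XX A - YY A := by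
    unfold thF
    rw [eA, eY]
  rw [h5 δ hδ, eY, eθ]
  refine ps_alg η C (ggF F q t) (rhF δ F q t) (YY A) (2 * XX A - YY A)
    (∑ k, ‖DE ((-2 * t)⁻¹) A T v k‖ ^ 2) (‖Hv A + ((-2 * t)⁻¹) • ν‖ ^ 2) (g1F F q t)
    (wF F q t) (4 * t ^ 2) (g2F F q t) (tq T) (((-2 * t)⁻¹) ^ 2 * (∑ k, v k ^ 2))
    (‖F q t‖ ^ 2) (Ig ((-2 * t)⁻¹) (-2 * t) δ A T ν v) hC hG0 hG1 hρ0 hρ1 hY0
    (Finset.sum_nonneg fun k _ => sq_nonneg _) (sq_nonneg _) h1 h2 h3 (tq_nonneg T) h4 ?_ hI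
  exact mul_nonneg (sq_nonneg _) (Finset.sum_nonneg fun k _ => sq_nonneg _)

end Pool.Agent.Helper28.CL
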